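import Mathlib

/-!
# Flows on (ℝ² ∖ S) × ℝ² and orbit spaces homeomorphic to the 3-torus
-/

set_option autoImplicit false

namespace Pool.Agent.Helper59_Flow

/-- The subset `(ℝ² ∖ S) × ℝ²` of `ℂ × ℂ`. -/
def space (S : Set ℂ) : Set (ℂ × ℂ) := {p | p.1 ∉ S}

/-- A `C¹` flow on `space S`. -/
structure IsFlow (S : Set ℂ) (φ : ℝ → ℂ × ℂ → ℂ × ℂ) : Prop where
  contDiffOn : ContDiffOn ℝ 1 (fun x : ℝ × (ℂ × ℂ) => φ x.1 x.2) (Set.univ ×ˢ space S)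
  mem : ∀ t, ∀ p ∈ space S, φ t p ∈ space S
  zero : ∀ p ∈ space S, φ 0 p = p
  add : ∀ s t, ∀ p ∈ space S, φ (s + t) p = φ s (φ t p)

/-- The torus `(S¹)³` in `ℂ³`. -/
def torus : Set (Fin 3 → ℂ) := {z | ∀ i, ‖z i‖ = 1}

/-- `q` identifies the orbit space of the flow `φ` on `space S` with the torus `(S¹)³ ⊆ ℂ³`:
`q` is a continuous quotient map onto the torus whose fibres are the orbits and away from
the fixed points it is a `C¹` submersion to the torus (the derivative has rank `3`). -/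
structure IsTorusQuotient (S : Set ℂ) (φ : ℝ → ℂ × ℂ → ℂ × ℂ) (q : ℂ × ℂ → Fin 3 → ℂ) :
    Prop where
  mem : ∀ p ∈ space S, q p ∈ torus
  surj : ∀ z ∈ torus, ∃ p ∈ space S, q p = z
  fibre : ∀ p ∈ space S, ∀ p' ∈ space S, q p = q p' ↔ ∃ t, φ t p = p'
  continuousOn : ContinuousOn q (space S)
  quotient : ∀ W ⊆ torus, IsOpen (space S ∩ q ⁻¹' W) → ∃ V, IsOpen V ∧ W = V ∩ torus
  smooth : ∀ p ∈ space S, (∃ t, φ t p ≠ p) →
    ContDiffAt ℝ 1 q p ∧ Module.finrank ℝ (LinearMap.range (fderiv ℝ q p : ℂ × ℂ →ₗ[ℝ] Fin 3 → ℂ)) = 3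

end Pool.Agent.Helper59_Flow
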