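import Mathlib
import Pool.Agent.Helper59_Flow.Flow

/-!
# Interface for MP_59a510_gt: the 3-torus is not the orbit space of a flow on (ℝ² ∖ S) × ℝ²

* `N S`     : the space `(ℂ ∖ S) × ℂ`
* `T3`,`R3` : the torus `(ℝ/ℤ)³` and its universal cover, `pr : R3 → T3`
* `AStatement` (module A): the combinatorial contradiction
* `BStatement` (module B): cuts of `N S`
* `FBStatement` (module FB): flow boxes of a C¹ flow with C¹ submersive quotient map
-/

set_option autoImplicit false

open Set Topology Filter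

namespace Pool.Agent.Helper59_Flow

/-- The space `(ℝ² ∖ S) × ℝ²`. -/
abbrev N (S : Set ℂ) : Type := {p : ℂ × ℂ // p.1 ∉ S}

/-- The universal cover of the torus. -/
abbrev R3 : Type := Fin 3 → ℝ

/-- The torus. -/
abbrev T3 : Type := Fin 3 → AddCircle (1 : ℝ)

/-- The projection. -/
def pr (r : R3) : T3 := fun i => (r i : AddCircle (1 : ℝ))

/-- The lattice. -/
abbrev Z3 : Type := Fin 3 → ℤ

/-! ### Module A -/

/-- `e k` is the `k`-th basis vector of the lattice. -/
def e (k : Fin 3) : Z3 := Pi.single k 1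

/-- the free abelian group on `ι × ℤ³` -/
abbrev L (ι : Type) : Type := (ι × Z3) →₀ ℤ

/-- translation action of `ℤ³` on `L ι` -/
noncomputable def shift {ι : Type} (g : Z3) (l : L ι) : L ι :=
  l.mapDomain (fun j => (j.1, j.2 + g))

/-- displacement -/
noncomputable def disp {ι : Type} (x : ι → Z3) (l : L ι) : Z3 :=
  l.sum (fun j n => n • x j.1)

/-- holonomy of the cochain `A` around the face at `v` in the directions `k, l` -/
noncomputable def hol {ι : Type} (A : Fin 3 → Z3 → L ι) (k l : Fin 3) (v : Z3) : L ι :=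
  A k v + A l (v + e k) - A k (v + e l) - A l v

/-- MODULE A. There is no `m ℤ³`-equivariant `L`-valued 1-cochain on the lattice `ℤ³` such that the
holonomies of the six faces of each cube are multiples of one element, the holonomies have
displacement zero, and the displacement of a full period in the direction `k` is `- e k`. -/
def AStatement : Prop :=
  ∀ (ι : Type) (x : ι → Z3) (m : ℕ), 0 < m → ∀ A : Fin 3 → Z3 → L ι,
    (∀ k v g, A k (v + m • g) = shift g (A k v)) →
    (∀ v : Z3, ∃ d : L ι, ∀ k l : Fin 3, ∀ w : Z3,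
      (w = v ∨ (∃ n : Fin 3, n ≠ k ∧ n ≠ l ∧ w = v + e n)) → k ≠ l →
        ∃ z : ℤ, hol A k l w = z • d) →
    (∀ k l v, disp x (hol A k l v) = 0) →
    (∀ k v, disp x (∑ i ∈ Finset.range m, A k (v + i • e k)) = - e k) →
    False

/-! ### Module B -/

/-- MODULE B. Cuts. `S` closed and discrete. There are circle valued functions `ω s`, `s ∈ S`, on
`N S` with pairwise disjoint and locally finite supports such that each continuous map
`q : N S → T3` is, up to the class of a continuous `f : N S → R3`, an integral combination of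
them. (It is enough to do this for one coordinate, i.e. for a map to `AddCircle 1`, since the
`ω s` do not depend on `q`.) -/
def BStatement : Prop :=
  ∀ S : Set ℂ, IsClosed S → (∀ R : ℝ, (S ∩ Metric.closedBall 0 R).Finite) →
    ∃ ω : S → N S → AddCircle (1 : ℝ),
      (∀ s, Continuous (ω s)) ∧
      (∀ p : N S, ∃ V ∈ 𝓝 p, {s : S | ∃ p' ∈ V, ω s p' ≠ 0}.Finite) ∧
      (∀ p s s', ω s p ≠ 0 → ω s' p ≠ 0 → s = s') ∧
      ∀ q : N S → AddCircle (1 : ℝ), Continuous q →
        ∃ (x : S → ℤ) (f : N S → ℝ), Continuous f ∧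
          (∀ p s, ω s p ≠ 0 → q p = (f p : AddCircle (1 : ℝ)) + x s • ω s p) ∧
          (∀ p, (∀ s, ω s p = 0) → q p = (f p : AddCircle (1 : ℝ)))

/-! ### Module FB -/

/-- MODULE FB: flow boxes. -/
def FBStatement : Prop :=
  ∀ (S : Set ℂ) (φ : ℝ → ℂ × ℂ → ℂ × ℂ) (q : ℂ × ℂ → Fin 3 → ℂ), IsClosed S →
    IsFlow S φ → IsTorusQuotient S φ q →
    ∀ p₀ ∈ space S, (∃ t, φ t p₀ ≠ p₀) →
      ∃ (ρ : ℝ) (σ : R3 → ℂ × ℂ) (τ : ℂ × ℂ → ℝ) (θ : ℂ × ℂ → R3) (V : Set (ℂ × ℂ)),
        0 < ρ ∧ V ∈ 𝓝 p₀ ∧ V ⊆ space S ∧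
        ContinuousOn σ (Metric.ball 0 ρ) ∧
        (∀ y ∈ Metric.ball (0 : R3) ρ, σ y ∈ space S ∧
          ∀ i, q (σ y) i = q p₀ i * Complex.exp (2 * Real.pi * Complex.I * y i)) ∧
        ContinuousOn τ V ∧ ContinuousOn θ V ∧
        ∀ p ∈ V, θ p ∈ Metric.ball (0 : R3) ρ ∧
          (∀ i, q p i = q p₀ i * Complex.exp (2 * Real.pi * Complex.I * θ p i)) ∧
          φ (τ p) (σ (θ p)) = p

end Pool.Agent.Helper59_Flow
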