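import Mathlib
import Pool.Agent.Helper59_Flow.Defs

/-!
# Interface between module D (charts) and module E (assembly)
-/

set_option autoImplicit false

open Set Topology Filter

namespace Pool.Agent.Helper59_Flow

/-- A chart: a contractible space `X` over `N S` together with a lift `rel` of `q ∘ h - P`,
such that on the fibres of `rel` the map `h` is injective or periodic. -/
structure Chart (S : Set ℂ) (q : N S → T3) where
  X : Type
  [top : TopologicalSpace X]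
  h : X → N S
  rel : X → R3
  P : T3
  continuous_h : Continuous h
  continuous_rel : Continuous rel
  hq : ∀ ξ, q (h ξ) = P + pr (rel ξ)
  contr : ∃ (x0 : X) (c : C(unitInterval × X, X)), (∀ ξ, c (0, ξ) = x0) ∧ (∀ ξ, c (1, ξ) = ξ)
  cyc : ∀ y : R3, Set.InjOn h {ξ | rel ξ = y} ∨
    ∃ (γ : ℝ → X) (T : ℝ), Continuous γ ∧ (∀ t, rel (γ t) = y) ∧
      (∀ ξ, rel ξ = y → ∃ t, γ t = ξ) ∧ (∀ t, h (γ (t + T)) = h (γ t)) ∧
      ∀ t t', h (γ t) = h (γ t') → ∃ n : ℤ, t' = t + n * T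

attribute [instance] Chart.top

/-- The charts `C`, `C'` (centres differing by `pr δ`) are compatible near their centres. -/
def Trans {S : Set ℂ} {q : N S → T3} (C C' : Chart S q) (δ : R3) (ε : ℝ) : Prop :=
  ∃ (Z : Type) (_ : TopologicalSpace Z) (_ : PreconnectedSpace Z) (a : Z → C.X) (b : Z → C'.X),
    Continuous a ∧ Continuous b ∧ (∀ z, C.h (a z) = C'.h (b z)) ∧
    (∀ z, C.rel (a z) = δ + C'.rel (b z)) ∧
    (∀ ξ, ‖C.rel ξ‖ ≤ ε → ∃ z, a z = ξ) ∧ (∀ ξ, ‖C'.rel ξ‖ ≤ ε → ∃ z, b z = ξ)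

/-- MODULE D: charts (to be proved from `FBStatement`). -/
def DStatement : Prop :=
  ∀ (S : Set ℂ) (φ : ℝ → ℂ × ℂ → ℂ × ℂ) (q : ℂ × ℂ → Fin 3 → ℂ), IsClosed S →
    IsFlow S φ → IsTorusQuotient S φ q →
    ∃ q' : N S → T3, Continuous q' ∧ ∃ m : ℕ, 0 < m ∧ ∃ ch : T3 → Chart S q',
      (∀ P, (ch P).P = P) ∧
      (∀ P y, ‖y‖ ≤ 1 / (m : ℝ) → ∃ ξ, (ch P).rel ξ = y) ∧
      ∀ P k, Trans (ch P) (ch (P + pr (Pi.single k (1 / (m : ℝ))))) (Pi.single k (1 / (m : ℝ)))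
        (1 / (m : ℝ))

end Pool.Agent.Helper59_Flow
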