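import Pool.Agent.Helper59_Flow.Sig

/-!
Module E: the assembly.
-/

set_option autoImplicit false

open Set Topology Filter

namespace Pool.Agent.Helper59_Flow

variable {S : Set ℂ} {q : N S → T3}

/-- displacement as a homomorphism -/
noncomputable def dispHom {ι : Type} (x : ι → Z3) : L ι →+ Z3 where
  toFun := disp x
  map_zero' := by simp [disp]
  map_add' := by
    intro a b
    unfold disp
    exact Finsupp.sum_add_index' (fun j => by simp) (fun j m n => add_smul m n _)

lemma disp_real {ι : Type} (x : ι → Z3) (l : L ι) (i : Fin 3) :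
    ((disp x l i : ℤ) : ℝ) = ∑ᶠ j, (l j : ℝ) * x j.1 i := by
  rw [finsum_eq_sum_of_support_subset (s := l.support)]
  · unfold disp
    rw [Finsupp.sum, Finset.sum_apply]
    push_cast
    refine Finset.sum_congr rfl fun j _ => ?_
    simp
  · intro j hj
    by_contra hcon
    apply hj
    have : l j = 0 := by simpa using hcon
    change (l j : ℝ) * x j.1 i = 0
    rw [this]; simp

open Classical in
/-- make a finitely supported function -/
noncomputable def toL {ι : Type} (u : ι × Z3 → ℤ) : L ι :=
  if h : (Function.support u).Finite then Finsupp.ofSupportFinite u h else 0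

lemma toL_apply {ι : Type} {u : ι × Z3 → ℤ} (h : (Function.support u).Finite) (j : ι × Z3) :
    toL u j = u j := by
  unfold toL
  rw [dif_pos h]
  rfl

lemma shift_apply {ι : Type} (g : Z3) (l : L ι) (j : ι × Z3) :
    shift g l (j.1, j.2 + g) = l j := by
  unfold shift
  have hinj : Function.Injective (fun j : ι × Z3 => (j.1, j.2 + g)) := by
    rintro ⟨a, b⟩ ⟨a', b'⟩ h
    simp only [Prod.mk.injEq, add_left_inj] at h
    exact Prod.ext h.1 h.2
  exact Finsupp.mapDomain_apply hinj l j

lemma Adiff_fin (B : BData S q) {C C' : Chart S q} {ty ty' : R3} (hty : pr ty = C.P)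
    (hty' : pr ty' = C'.P) (z : C.X × C'.X) :
    (Function.support (Adiff B C C' ty ty' z)).Finite := by
  refine ((lam_fin B C hty z.1).union (lam_fin B C' hty' z.2)).subset ?_
  intro j hj
  by_contra hcon
  rw [Set.mem_union, not_or] at hcon
  have h1 : lam B C ty j z.1 = 0 := by
    by_contra h; exact hcon.1 h
  have h2 : lam B C' ty' j z.2 = 0 := by
    by_contra h; exact hcon.2 h
  apply hj
  unfold Adiff
  rw [h1, h2]
  simp

/-- grid vertices -/
noncomputable def vt (m : ℕ) (v : Z3) : R3 := fun i => (v i : ℝ) / m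

lemma vt_add (m : ℕ) (v : Z3) (k : Fin 3) :
    vt m (v + e k) = fun i => vt m v i + (Pi.single k (1 / (m : ℝ)) : R3) i := by
  ext i
  simp only [vt, e, Pi.add_apply, Int.cast_add]
  by_cases h : i = k
  · subst h; simp [add_div]
  · simp [h]

lemma vt_period {m : ℕ} (hm : 0 < m) (v g : Z3) :
    vt m (v + m • g) = fun i => vt m v i + g i := by
  ext i
  have : (m : ℝ) ≠ 0 := by positivity
  simp only [vt, Pi.add_apply, Int.cast_add, Pi.smul_apply]
  field_simp
  simp

lemma pr_period (ty : R3) (g : Z3) : pr (fun i => ty i + g i) = pr ty := by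
  ext i
  exact coe_eq_coe_iff.2 ⟨g i, rfl⟩

/-- the centre of the cube at `v` -/
noncomputable def ctr (m : ℕ) (v : Z3) : R3 := fun i => ((v i : ℝ) + 1 / 2) / m

lemma ctr_near {m : ℕ} (hm : 0 < m) (v w : Z3) (h : ∀ i, w i = v i ∨ w i = v i + 1) :
    ‖ctr m v - vt m w‖ ≤ 1 / (m : ℝ) := by
  have hm' : (0 : ℝ) < m := by exact_mod_cast hm
  rw [pi_norm_le_iff_of_nonneg (by positivity)]
  intro i
  have h1 : (ctr m v - vt m w) i = ((v i : ℝ) + 1 / 2 - w i) / m := by
    simp only [ctr, vt, Pi.sub_apply]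
    ring
  rw [h1, Real.norm_eq_abs, abs_div, abs_of_pos hm']
  refine div_le_div_of_nonneg_right ?_ hm'.le
  rcases h i with h2 | h2
  · rw [h2, abs_le]; constructor <;> linarith
  · rw [h2, abs_le]; push_cast; constructor <;> linarith

theorem moduleE (hA : AStatement) (hB : BStatement) (hS : IsClosed S)
    (hS' : ∀ R : ℝ, (S ∩ Metric.closedBall 0 R).Finite) (hq : Continuous q) {m : ℕ} (hm : 0 < m)
    (ch : T3 → Chart S q) (hP : ∀ P, (ch P).P = P)
    (hne : ∀ P y, ‖y‖ ≤ 1 / (m : ℝ) → ∃ ξ, (ch P).rel ξ = y)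
    (htr : ∀ P k, Trans (ch P) (ch (P + pr (Pi.single k (1 / (m : ℝ)))))
      (Pi.single k (1 / (m : ℝ))) (1 / (m : ℝ))) : False := by
  obtain ⟨B⟩ := exists_BData hB hS hS' hq
  have hm' : (0 : ℝ) < m := by exact_mod_cast hm
  have hedge := fun P k => edge B (htr P k)
    (by obtain ⟨ξ, hξ⟩ := hne P 0 (by simp); exact ⟨ξ, by rw [hξ]; simp⟩)
    (by rw [hP, hP])
  choose zz hz1 hz2 hz3 using hedge
  -- the cochain
  let u : T3 → R3 → Fin 3 → S × Z3 → ℤ := fun P ty k =>
    Adiff B (ch P) (ch (P + pr (Pi.single k (1 / (m : ℝ))))) ty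
      (fun i => ty i + (Pi.single k (1 / (m : ℝ)) : R3) i) (zz P k)
  let A : Fin 3 → Z3 → L S := fun k v => toL (u (pr (vt m v)) (vt m v) k)
  have hPv : ∀ v k, pr (vt m (v + e k)) = pr (vt m v) + pr (Pi.single k (1 / (m : ℝ))) := by
    intro v k
    rw [vt_add, pr_addf rfl]
  have hfin : ∀ v k, (Function.support (u (pr (vt m v)) (vt m v) k)).Finite := by
    intro v k
    refine Adiff_fin B (by rw [hP]) (by rw [hP, pr_addf rfl]) _
  have hAu : ∀ k v j, A k v j = u (pr (vt m v)) (vt m v) k j := fun k v j =>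
    toL_apply (hfin v k) j
  let Sg : Z3 → R3 → Set (N S × (S × Z3 → ℝ)) := fun v y =>
    Sig B (ch (pr (vt m v))) (vt m v) y
  have hEdge : ∀ k v y, ‖y - vt m v‖ ≤ 1 / (m : ℝ) → ‖y - vt m (v + e k)‖ ≤ 1 / (m : ℝ) →
      ∀ p (μ : S × Z3 → ℝ), (p, μ) ∈ Sg v y ↔ (p, fun j => μ j + A k v j) ∈ Sg (v + e k) y := by
    intro k v y hy hy' p μ
    rw [vt_add] at hy'
    have h1 := (hz3 (pr (vt m v)) k (vt m v) (by rw [hP])).2 y hy hy' p μ
    have h2 : Sg (v + e k) y = Sig B (ch (pr (vt m v) + pr (Pi.single k (1 / (m : ℝ)))))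
        (fun i => vt m v i + (Pi.single k (1 / (m : ℝ)) : R3) i) y := by
      simp only [Sg]
      rw [hPv, vt_add]
    rw [h2, h1]
    have h3 : (fun j => μ j + (A k v j : ℝ)) = (fun j => μ j +
        (Adiff B (ch (pr (vt m v))) (ch (pr (vt m v) + pr (Pi.single k (1 / (m : ℝ))))) (vt m v)
      (fun i => vt m v i + (Pi.single k (1 / (m : ℝ)) : R3) i) (zz (pr (vt m v)) k) j : ℝ)) := by
      ext j
      rw [hAu]
    rw [h3]
  -- the integer vectors
  let Kv : Z3 → Z3 := fun v => KK B (ch (pr (vt m v))) (vt m v)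
  have hdisp : ∀ k v, disp B.x (A k v) = Kv (v + e k) - Kv v := by
    intro k v
    ext i
    have h1 := KK_spec B (ch (pr (vt m v))) (ty := vt m v) (by rw [hP]) (zz (pr (vt m v)) k).1 i
    have h2 := KK_spec B (ch (pr (vt m v) + pr (Pi.single k (1 / (m : ℝ)))))
      (ty := fun i => vt m v i + (Pi.single k (1 / (m : ℝ)) : R3) i)
      (by rw [hP, pr_addf rfl]) (zz (pr (vt m v)) k).2 i
    have h3 : Kv (v + e k) = KK B (ch (pr (vt m v) + pr (Pi.single k (1 / (m : ℝ)))))
        (fun i => vt m v i + (Pi.single k (1 / (m : ℝ)) : R3) i) := by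
      simp only [Kv]
      rw [hPv, vt_add]
    have h4 : ((disp B.x (A k v) i : ℤ) : ℝ) = ((Kv (v + e k) - Kv v) i : ℤ) := by
      rw [disp_real, Pi.sub_apply, Int.cast_sub, h3]
      simp only [Kv]
      rw [← h1, ← h2, hz1, hz2]
      have h5 : (∑ᶠ j, ((A k v j : ℤ) : ℝ) * (B.x j.1 i : ℝ)) =
          (∑ᶠ j, lam B (ch (pr (vt m v) + pr (Pi.single k (1 / (m : ℝ)))))
            (fun i => vt m v i + (Pi.single k (1 / (m : ℝ)) : R3) i) j (zz (pr (vt m v)) k).2 *
              (B.x j.1 i : ℝ)) -
          ∑ᶠ j, lam B (ch (pr (vt m v))) (vt m v) j (zz (pr (vt m v)) k).1 * (B.x j.1 i : ℝ) := by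
        rw [← finsum_sub_distrib]
        · refine finsum_congr fun j => ?_
          rw [hAu]
          have h6 := (hz3 (pr (vt m v)) k (vt m v) (by rw [hP])).1 j
          simp only [u]
          rw [← h6]
          ring
        · refine (lam_fin B (ch (pr (vt m v) + pr (Pi.single k (1 / (m : ℝ)))))
            (ty := fun i => vt m v i + (Pi.single k (1 / (m : ℝ)) : R3) i)
            (by rw [hP, pr_addf rfl]) (zz (pr (vt m v)) k).2).subset ?_
          intro j hj h0
          exact hj (by
            change lam B _ _ j _ * (B.x j.1 i : ℝ) = 0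
            rw [show lam B (ch (pr (vt m v) + pr (Pi.single k (1 / (m : ℝ)))))
              (fun i => vt m v i + (Pi.single k (1 / (m : ℝ)) : R3) i) j
                (zz (pr (vt m v)) k).2 = 0 from h0, zero_mul])
        · refine (lam_fin B (ch (pr (vt m v))) (ty := vt m v)
            (by rw [hP]) (zz (pr (vt m v)) k).1).subset ?_
          intro j hj h0
          exact hj (by
            change lam B _ _ j _ * (B.x j.1 i : ℝ) = 0
            rw [show lam B (ch (pr (vt m v))) (vt m v) j
                (zz (pr (vt m v)) k).1 = 0 from h0, zero_mul])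
      rw [h5]
      ring
    exact_mod_cast h4
  have hKper : ∀ v k, Kv (v + m • e k) = Kv v - e k := by
    intro v k
    simp only [Kv]
    rw [vt_period hm, pr_period, KK_shift B (ch (pr (vt m v))) (by rw [hP])]
  refine hA S B.x m hm A ?_ ?_ ?_ ?_
  · -- equivariance
    intro k v g
    ext j
    obtain ⟨s, w⟩ := j
    have h1 := shift_apply g (A k v) (s, w - g)
    simp only [sub_add_cancel] at h1
    rw [h1, hAu, hAu]
    simp only [u]
    rw [vt_period hm, pr_period]
    have h2 := Adiff_shift B (ch (pr (vt m v))) (ch (pr (vt m v) + pr (Pi.single k (1 / (m : ℝ)))))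
      (vt m v) (fun i => vt m v i + (Pi.single k (1 / (m : ℝ)) : R3) i) (zz (pr (vt m v)) k)
      (s, w - g) g
    simp only [sub_add_cancel] at h2
    rw [← h2]
    congr 1
    ext i
    ring
  · -- the cube condition
    intro v
    obtain ⟨d, hd, hd'⟩ := coset B (ch (pr (vt m v))) (ty := vt m v) (by rw [hP]) (ctr m v)
    refine ⟨toL d, ?_⟩
    intro k l w hw hkl
    -- corners
    have hc0 : ‖ctr m v - vt m v‖ ≤ 1 / (m : ℝ) := ctr_near hm v v (fun i => Or.inl rfl)
    have hcw : ‖ctr m v - vt m w‖ ≤ 1 / (m : ℝ) := by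
      refine ctr_near hm v w fun i => ?_
      rcases hw with rfl | ⟨n, hnk, hnl, rfl⟩
      · exact Or.inl rfl
      · simp only [e, Pi.add_apply, Pi.single_apply]
        split_ifs <;> simp
    have hcwk : ‖ctr m v - vt m (w + e k)‖ ≤ 1 / (m : ℝ) := by
      refine ctr_near hm v _ fun i => ?_
      rcases hw with rfl | ⟨n, hnk, hnl, rfl⟩
      · simp only [e, Pi.add_apply, Pi.single_apply]
        split_ifs <;> simp
      · simp only [e, Pi.add_apply, Pi.single_apply]
        split_ifs with h1 h2
        · exact absurd (h1.symm.trans h2) hnk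
        all_goals simp
    have hcwl : ‖ctr m v - vt m (w + e l)‖ ≤ 1 / (m : ℝ) := by
      refine ctr_near hm v _ fun i => ?_
      rcases hw with rfl | ⟨n, hnk, hnl, rfl⟩
      · simp only [e, Pi.add_apply, Pi.single_apply]
        split_ifs <;> simp
      · simp only [e, Pi.add_apply, Pi.single_apply]
        split_ifs with h1 h2
        · exact absurd (h1.symm.trans h2) hnl
        all_goals simp
    have hcwkl : ‖ctr m v - vt m (w + e k + e l)‖ ≤ 1 / (m : ℝ) := by
      refine ctr_near hm v _ fun i => ?_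
      rcases hw with rfl | ⟨n, hnk, hnl, rfl⟩
      · simp only [e, Pi.add_apply, Pi.single_apply]
        split_ifs with h1 h2
        · exact absurd (h1.symm.trans h2) hkl
        all_goals simp
      · simp only [e, Pi.add_apply, Pi.single_apply]
        split_ifs with h1 h2 h3 h4 h5 h6
        · exact absurd (h1.symm.trans h2) hnk
        · exact absurd (h1.symm.trans h2) hnk
        · exact absurd (h1.symm.trans h4) hnl
        · simp
        · exact absurd (h5.symm.trans h6) hkl
        all_goals simp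
    -- a point
    obtain ⟨ξ, hξ⟩ := hne (pr (vt m v)) (ctr m v - vt m v) hc0
    let p : N S := (ch (pr (vt m v))).h ξ
    let μ : S × Z3 → ℝ := fun j => lam B (ch (pr (vt m v))) (vt m v) j ξ
    have hp : (p, μ) ∈ Sg v (ctr m v) := ⟨ξ, fun i => by rw [hξ]; rfl, rfl, fun j => rfl⟩
    -- holonomy acts on `Sg w`
    have hact : ∀ μ' : S × Z3 → ℝ, (p, μ') ∈ Sg w (ctr m v) →
        (p, fun j => μ' j + hol A k l w j) ∈ Sg w (ctr m v) := by
      intro μ' hμ'
      have h1 := (hEdge k w _ hcw hcwk p μ').1 hμ'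
      have h2 := (hEdge l (w + e k) _ hcwk hcwkl p _).1 h1
      rw [hEdge l w _ hcw hcwl p, hEdge k (w + e l) _ hcwl (by rw [add_right_comm]; exact hcwkl) p,
        add_right_comm w (e l) (e k)]
      have h3 : (fun j => μ' j + (A k w j : ℝ) + (A l (w + e k) j : ℝ)) =
          fun j => μ' j + (hol A k l w j : ℝ) + (A l w j : ℝ) + (A k (w + e l) j : ℝ) := by
        ext j
        simp only [hol, Finsupp.sub_apply, Finsupp.add_apply, Int.cast_sub, Int.cast_add]
        ring
      rw [← h3]
      exact h2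
    have hfinal : (p, fun j => μ j + hol A k l w j) ∈ Sg v (ctr m v) := by
      rcases hw with rfl | ⟨n, hnk, hnl, rfl⟩
      · exact hact μ hp
      · have h1 := (hEdge n v _ hc0 hcw p μ).1 hp
        have h2 := hact _ h1
        rw [hEdge n v _ hc0 hcw p]
        have h3 : (fun j => μ j + (A n v j : ℝ) + (hol A k l (v + e n) j : ℝ)) =
          fun j => μ j + (hol A k l (v + e n) j : ℝ) + (A n v j : ℝ) := by
          ext j; ring
        rw [← h3]
        exact h2
    obtain ⟨z, hz⟩ := hd' p μ _ hp hfinal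
    refine ⟨z, ?_⟩
    ext j
    have h1 := hz j
    rw [add_sub_cancel_left] at h1
    rw [Finsupp.smul_apply, toL_apply hd, smul_eq_mul]
    exact_mod_cast h1
  · -- displacement of the holonomy
    intro k l v
    change dispHom B.x (A k v + A l (v + e k) - A k (v + e l) - A l v) = 0
    rw [map_sub, map_sub, map_add]
    change disp B.x (A k v) + disp B.x (A l (v + e k)) - disp B.x (A k (v + e l)) -
      disp B.x (A l v) = 0
    rw [hdisp, hdisp, hdisp, hdisp, add_right_comm v (e l) (e k)]
    abel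
  · -- full period
    intro k v
    change dispHom B.x (∑ i ∈ Finset.range m, A k (v + i • e k)) = - e k
    rw [map_sum]
    have h1 : ∀ i : ℕ, dispHom B.x (A k (v + i • e k)) =
        Kv (v + (i + 1) • e k) - Kv (v + i • e k) := by
      intro i
      change disp B.x (A k (v + i • e k)) = _
      rw [hdisp, add_smul, one_smul, add_assoc]
    rw [Finset.sum_congr rfl fun i _ => h1 i,
      Finset.sum_range_sub (fun i : ℕ => Kv (v + i • e k)) m, hKper]
    simp

end Pool.Agent.Helper59_Flow
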