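import Pool.Agent.Helper59_Flow.E

/-!
The final combination, from the statements of the modules.
-/

set_option autoImplicit false

open Set Topology Filter

namespace Pool.Agent.Helper59_Flow

theorem final (hA : AStatement) (hB : BStatement) (hD : DStatement) (S : Set ℂ)
    (hS : IsClosed S) (hS' : ∀ R : ℝ, (S ∩ Metric.closedBall 0 R).Finite) :
    ¬ ∃ (φ : ℝ → ℂ × ℂ → ℂ × ℂ) (q : ℂ × ℂ → Fin 3 → ℂ), IsFlow S φ ∧ IsTorusQuotient S φ q := by
  rintro ⟨φ, q, hφ, hq⟩
  obtain ⟨q', hq', m, hm, ch, h1, h2, h3⟩ := hD S φ q hS hφ hq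
  exact moduleE hA hB hS hS' hq' hm ch h1 h2 h3

end Pool.Agent.Helper59_Flow
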