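import Pool.Agent.Helper59_Flow.W2
import Pool.Agent.Helper59_Flow.Defs2

/-!
The lifts `lam` of the labelled functions on a chart.
-/

set_option autoImplicit false

open Set Topology Filter

namespace Pool.Agent.Helper59_Flow

variable {S : Set ℂ} {q : N S → T3}

/-- base point of a chart -/
noncomputable def Chart.x0 (C : Chart S q) : C.X := C.contr.choose

/-- contraction of a chart -/
noncomputable def Chart.c (C : Chart S q) : C(unitInterval × C.X, C.X) :=
  C.contr.choose_spec.choose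

lemma Chart.c0 (C : Chart S q) : ∀ ξ, C.c (0, ξ) = C.x0 := C.contr.choose_spec.choose_spec.1

lemma Chart.c1 (C : Chart S q) : ∀ ξ, C.c (1, ξ) = ξ := C.contr.choose_spec.choose_spec.2

lemma Chart.preconnected (C : Chart S q) : PreconnectedSpace C.X :=
  preconnected_of_contr C.x0 C.c C.c0 C.c1

lemma pr_add (r s : R3) : pr (r + s) = pr r + pr s := by
  ext i; simp [pr]

/-- the lift on a chart -/
noncomputable def lam (B : BData S q) (C : Chart S q) (ty : R3) (j : S × Z3) : C.X → ℝ :=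
  cl C.x0 (fun ξ => W B j (C.h ξ) (fun i => ty i + C.rel ξ i))

lemma W_chart_cont (B : BData S q) (C : Chart S q) {ty : R3} (hty : pr ty = C.P) (j : S × Z3) :
    Continuous (fun ξ => W B j (C.h ξ) (fun i => ty i + C.rel ξ i)) := by
  refine W_continuous B j C.continuous_h (continuous_const.add C.continuous_rel) fun ξ => ?_
  rw [C.hq, ← hty, ← pr_add]
  rfl

lemma lam_spec (B : BData S q) (C : Chart S q) {ty : R3} (hty : pr ty = C.P) (j : S × Z3) :
    Continuous (lam B C ty j) ∧
      (∀ ξ, (lam B C ty j ξ : AddCircle (1 : ℝ)) = W B j (C.h ξ) (fun i => ty i + C.rel ξ i)) ∧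
      lam B C ty j C.x0 ∈ Set.Ico (0 : ℝ) 1 :=
  cl_spec C.x0 C.c C.c0 C.c1 (W_chart_cont B C hty j)

lemma lam_shift (B : BData S q) (C : Chart S q) (ty : R3) (j : S × Z3) (g : Z3) :
    lam B C (fun i => ty i + g i) (j.1, j.2 + g) = lam B C ty j := by
  unfold lam
  congr 1
  ext ξ
  have := W_shift B j g (C.h ξ) (fun i => ty i + C.rel ξ i)
  rw [← this]
  congr 1
  ext i
  ring

/-- finiteness along the contraction path -/
lemma lam_fin_path (B : BData S q) (C : Chart S q) {ty : R3} (hty : pr ty = C.P) (ξ : C.X) :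
    ∃ J : Finset (S × Z3), ∀ j, j ∉ J → ∀ t, lam B C ty j (C.c (t, ξ)) = 0 := by
  have hc : Continuous (fun t : unitInterval => C.c (t, ξ)) := C.c.continuous.comp (by fun_prop)
  have hfin := W_finite B (Y := unitInterval) (h := fun t => C.h (C.c (t, ξ)))
    (R := fun t => fun i => ty i + C.rel (C.c (t, ξ)) i) (C.continuous_h.comp hc)
    (continuous_const.add (C.continuous_rel.comp hc))
  refine ⟨hfin.toFinset, fun j hj t => ?_⟩
  have hj' : ∀ t, W B j (C.h (C.c (t, ξ))) (fun i => ty i + C.rel (C.c (t, ξ)) i) = 0 := by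
    intro t
    by_contra hne
    exact hj (hfin.mem_toFinset.2 ⟨t, hne⟩)
  obtain ⟨h1, h2, h3⟩ := lam_spec B C hty j
  have hint : ∀ t, ∃ n : ℤ, lam B C ty j (C.c (t, ξ)) = n := by
    intro t
    rw [← coe_eq_zero_iff', h2, hj' t]
  have h4 := const_of_int (h1.comp hc) hint t 0
  have h5 : lam B C ty j (C.c (t, ξ)) = lam B C ty j C.x0 := by
    have : lam B C ty j (C.c (t, ξ)) = lam B C ty j (C.c (0, ξ)) := h4
    rw [this, C.c0]
  obtain ⟨n, hn⟩ := hint 0
  rw [C.c0] at hn
  rw [hn] at h3 h5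
  have h6 : (0 : ℤ) ≤ n := by exact_mod_cast h3.1
  have h7 : n < 1 := by exact_mod_cast h3.2
  have h8 : n = 0 := by omega
  rw [h5, h8, Int.cast_zero]

lemma lam_fin (B : BData S q) (C : Chart S q) {ty : R3} (hty : pr ty = C.P) (ξ : C.X) :
    (Function.support fun j => lam B C ty j ξ).Finite := by
  obtain ⟨J, hJ⟩ := lam_fin_path B C hty ξ
  refine J.finite_toSet.subset fun j hj => ?_
  by_contra hcon
  have := hJ j hcon 1
  rw [C.c1] at this
  exact hj this

/-- the integer vector `K` -/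
lemma exists_K (B : BData S q) (C : Chart S q) {ty : R3} (hty : pr ty = C.P) :
    ∃ n : Z3, ∀ ξ i, (∑ᶠ j, lam B C ty j ξ * B.x j.1 i) - (ty i + C.rel ξ i - B.f (C.h ξ) i) =
      n i := by
  have hrepr : ∀ ξ (J : Finset (S × Z3)), (∀ j, j ∉ J → lam B C ty j ξ = 0) → ∀ i,
      (∑ᶠ j, lam B C ty j ξ * B.x j.1 i) = ∑ j ∈ J, lam B C ty j ξ * B.x j.1 i := by
    intro ξ J hJ i
    refine finsum_eq_sum_of_support_subset _ fun j hj => ?_
    by_contra hcon
    apply hj
    change lam B C ty j ξ * B.x j.1 i = 0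
    rw [hJ j (by simpa using hcon), zero_mul]
  have hint : ∀ ξ i, ∃ n : ℤ, (∑ᶠ j, lam B C ty j ξ * B.x j.1 i) -
      (ty i + C.rel ξ i - B.f (C.h ξ) i) = n := by
    intro ξ i
    have hJ : ∀ j, j ∉ (lam_fin B C hty ξ).toFinset → lam B C ty j ξ = 0 := by
      intro j hj
      by_contra hne
      exact hj ((lam_fin B C hty ξ).mem_toFinset.2 hne)
    rw [hrepr ξ _ hJ i]
    refine W_sum B (p := C.h ξ) (r := fun i => ty i + C.rel ξ i) ?_ (fun j => lam B C ty j ξ) _ hJ
      (fun j => (lam_spec B C hty j).2.1 ξ) i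
    rw [C.hq, ← hty, ← pr_add]
    rfl
  choose n hn using hint C.x0
  refine ⟨n, fun ξ i => ?_⟩
  rw [← hn i]
  obtain ⟨J, hJ⟩ := lam_fin_path B C hty ξ
  have hc : Continuous (fun t : unitInterval => C.c (t, ξ)) := C.c.continuous.comp (by fun_prop)
  have hcont : Continuous (fun t : unitInterval => (∑ᶠ j, lam B C ty j (C.c (t, ξ)) * B.x j.1 i) -
      (ty i + C.rel (C.c (t, ξ)) i - B.f (C.h (C.c (t, ξ))) i)) := by
    have h1 : (fun t : unitInterval => (∑ᶠ j, lam B C ty j (C.c (t, ξ)) * B.x j.1 i) -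
      (ty i + C.rel (C.c (t, ξ)) i - B.f (C.h (C.c (t, ξ))) i)) =
      fun t : unitInterval => (∑ j ∈ J, lam B C ty j (C.c (t, ξ)) * B.x j.1 i) -
      (ty i + C.rel (C.c (t, ξ)) i - B.f (C.h (C.c (t, ξ))) i) := by
      ext t
      rw [hrepr (C.c (t, ξ)) J (fun j hj => hJ j hj t) i]
    rw [h1]
    refine Continuous.sub ?_ ?_
    · refine continuous_finsetSum _ fun j _ => ?_
      exact (((lam_spec B C hty j).1).comp hc).mul continuous_const
    · refine Continuous.sub ?_ ?_
      · exact continuous_const.add ((continuous_apply i).comp (C.continuous_rel.comp hc))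
      · exact (continuous_apply i).comp (B.fc.comp (C.continuous_h.comp hc))
  have := const_of_int hcont (fun t => hint _ i) 1 0
  rw [C.c0, C.c1] at this
  exact this

/-- the integer vector of a chart -/
noncomputable def KK (B : BData S q) (C : Chart S q) (ty : R3) : Z3 :=
  fun i => round ((∑ᶠ j, lam B C ty j C.x0 * B.x j.1 i) - (ty i + C.rel C.x0 i - B.f (C.h C.x0) i))

lemma KK_spec (B : BData S q) (C : Chart S q) {ty : R3} (hty : pr ty = C.P) (ξ : C.X) (i : Fin 3) :
    (∑ᶠ j, lam B C ty j ξ * B.x j.1 i) - (ty i + C.rel ξ i - B.f (C.h ξ) i) = KK B C ty i := by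
  obtain ⟨n, hn⟩ := exists_K B C hty
  rw [hn ξ i]
  unfold KK
  rw [hn C.x0 i, round_intCast]

lemma KK_shift (B : BData S q) (C : Chart S q) {ty : R3} (hty : pr ty = C.P) (g : Z3) :
    KK B C (fun i => ty i + g i) = KK B C ty - g := by
  have hty' : pr (fun i => ty i + g i) = C.P := by
    rw [← hty]
    ext i
    exact coe_eq_coe_iff.2 ⟨g i, rfl⟩
  ext i
  have h1 := KK_spec B C hty C.x0 i
  have h2 := KK_spec B C hty' C.x0 i
  have h3 : (∑ᶠ j, lam B C (fun i => ty i + g i) j C.x0 * B.x j.1 i) =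
      ∑ᶠ j, lam B C ty j C.x0 * B.x j.1 i := by
    let eqv : S × Z3 ≃ S × Z3 :=
      { toFun := fun j => (j.1, j.2 + g), invFun := fun j => (j.1, j.2 - g),
        left_inv := fun j => by simp, right_inv := fun j => by simp }
    rw [← finsum_comp_equiv eqv]
    refine finsum_congr fun j => ?_
    have : lam B C (fun i => ty i + g i) (eqv j) = lam B C ty j := lam_shift B C ty j g
    rw [this]
    rfl
  rw [h3] at h2
  have h4 : (KK B C (fun i => ty i + g i) i : ℝ) = ((KK B C ty - g) i : ℤ) := by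
    rw [← h2, Pi.sub_apply, Int.cast_sub, ← h1]
    ring
  exact_mod_cast h4

end Pool.Agent.Helper59_Flow
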