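import Pool.Agent.Helper59_Flow.Defs

/-!
General lemmas: integer valued continuous functions, lifts of circle valued functions on
contractible spaces.
-/

set_option autoImplicit false

open Set Topology Filter

namespace Pool.Agent.Helper59_Flow

/-- an integer valued continuous function on a preconnected space is constant -/
lemma const_of_int {X : Type} [TopologicalSpace X] [PreconnectedSpace X] {g : X → ℝ}
    (hg : Continuous g) (hint : ∀ x, ∃ n : ℤ, g x = n) (x y : X) : g x = g y := by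
  have h1 : IsPreconnected (Set.range g) := isPreconnected_range hg
  have key : ∀ x y : X, ¬ g x < g y := by
    intro x y h
    obtain ⟨a, ha⟩ := hint x
    have hlt : (a : ℝ) < g y := ha ▸ h
    obtain ⟨b, hb⟩ := hint y
    have hab : a < b := by rw [hb] at hlt; exact_mod_cast hlt
    have hab' : (a : ℝ) + 1 ≤ b := by exact_mod_cast hab
    have : (a : ℝ) + 1 / 2 ∈ Set.range g :=
      h1.ordConnected.out (Set.mem_range_self x) (Set.mem_range_self y)
        ⟨by rw [ha]; linarith, by rw [hb]; linarith⟩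
    obtain ⟨z, hz⟩ := this
    obtain ⟨c, hc⟩ := hint z
    rw [hc] at hz
    have h2 : (2 * c : ℝ) = 2 * a + 1 := by linarith
    have h3 : 2 * c = 2 * a + 1 := by exact_mod_cast h2
    omega
  exact le_antisymm (not_lt.1 (key y x)) (not_lt.1 (key x y))

lemma coe_eq_coe_iff {a b : ℝ} :
    (a : AddCircle (1 : ℝ)) = (b : AddCircle (1 : ℝ)) ↔ ∃ n : ℤ, a = b + n := by
  rw [← sub_eq_zero, ← AddCircle.coe_sub, AddCircle.coe_eq_zero_iff]
  constructor
  · rintro ⟨n, hn⟩
    refine ⟨n, ?_⟩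
    rw [zsmul_eq_mul, mul_one] at hn
    linarith
  · rintro ⟨n, hn⟩
    refine ⟨n, ?_⟩
    rw [zsmul_eq_mul, mul_one]
    linarith

lemma coe_eq_zero_iff' {a : ℝ} :
    (a : AddCircle (1 : ℝ)) = 0 ↔ ∃ n : ℤ, a = n := by
  have := coe_eq_coe_iff (a := a) (b := 0)
  rw [AddCircle.coe_zero] at this
  simpa using this

/-- Two lifts of the same function differ by a constant integer. -/
lemma lift_diff {X : Type} [TopologicalSpace X] [PreconnectedSpace X] {F G : X → ℝ}
    (hF : Continuous F) (hG : Continuous G)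
    (h : ∀ x, (F x : AddCircle (1 : ℝ)) = (G x : AddCircle (1 : ℝ))) :
    ∃ n : ℤ, ∀ x, F x = G x + n := by
  by_cases hX : Nonempty X
  · obtain ⟨x0⟩ := hX
    obtain ⟨n, hn⟩ := coe_eq_coe_iff.1 (h x0)
    refine ⟨n, fun x => ?_⟩
    have := const_of_int (g := fun x => F x - G x) (hF.sub hG)
      (fun x => by obtain ⟨k, hk⟩ := coe_eq_coe_iff.1 (h x); exact ⟨k, by linarith⟩) x x0
    linarith
  · exact ⟨0, fun x => (hX ⟨x⟩).elim⟩

/-- Existence of lifts on contractible spaces. -/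
lemma exists_lift {X : Type} [TopologicalSpace X] (x0 : X) (c : C(unitInterval × X, X))
    (hc0 : ∀ ξ, c (0, ξ) = x0) (hc1 : ∀ ξ, c (1, ξ) = ξ) {u : X → AddCircle (1 : ℝ)}
    (hu : Continuous u) {r : ℝ} (hr : (r : AddCircle (1 : ℝ)) = u x0) :
    ∃ F : X → ℝ, Continuous F ∧ (∀ ξ, (F ξ : AddCircle (1 : ℝ)) = u ξ) ∧ F x0 = r := by
  have cov := AddCircle.isCoveringMap_coe (𝕜 := ℝ) (1 : ℝ)
  let H : C(unitInterval × X, AddCircle (1 : ℝ)) := ⟨fun p => u (c p), hu.comp c.continuous⟩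
  let f : C(X, ℝ) := ContinuousMap.const X r
  have H0 : ∀ a, H (0, a) = ((f a : ℝ) : AddCircle (1 : ℝ)) := by
    intro a
    change u (c (0, a)) = ((r : ℝ) : AddCircle (1 : ℝ))
    rw [hc0, hr]
  let G := cov.liftHomotopy H f H0
  have hG := cov.liftHomotopy_lifts H f H0
  have hG' : ∀ p, ((G p : ℝ) : AddCircle (1 : ℝ)) = u (c p) := fun p => congrFun hG p
  have hG0 : ∀ a, G (0, a) = r := fun a => cov.liftHomotopy_zero H f H0 a
  -- value at `x0` at time one: the path `t ↦ c (t, x0)` is a loop, correct by a shift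
  obtain ⟨n, hn⟩ := coe_eq_coe_iff.1 (show ((G (1, x0) : ℝ) : AddCircle (1 : ℝ)) = (r : AddCircle (1 : ℝ)) by
    rw [hG', hc1, hr])
  refine ⟨fun ξ => G (1, ξ) - n, ?_, ?_, ?_⟩
  · exact (G.continuous.comp (by fun_prop)).sub continuous_const
  · intro ξ
    have h1 : ((G (1, ξ) - n : ℝ) : AddCircle (1 : ℝ)) = ((G (1, ξ) : ℝ) : AddCircle (1 : ℝ)) :=
      coe_eq_coe_iff.2 ⟨-n, by push_cast; ring⟩
    rw [h1, hG', hc1]
  · simp only
    rw [hn]; ring

/-- A path-connectedness consequence of a contraction. -/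
lemma preconnected_of_contr {X : Type} [TopologicalSpace X] (x0 : X) (c : C(unitInterval × X, X))
    (hc0 : ∀ ξ, c (0, ξ) = x0) (hc1 : ∀ ξ, c (1, ξ) = ξ) : PreconnectedSpace X := by
  refine ⟨isPreconnected_of_forall x0 fun y _ => ?_⟩
  refine ⟨Set.range (fun t : unitInterval => c (t, y)), Set.subset_univ _, ⟨0, hc0 y⟩,
    ⟨1, hc1 y⟩, isPreconnected_range (c.continuous.comp (by fun_prop))⟩

open Classical in
/-- The canonical lift (value at `x0` in `[0,1)`), zero if there is no lift. -/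
noncomputable def cl {X : Type} [TopologicalSpace X] (x0 : X) (u : X → AddCircle (1 : ℝ)) :
    X → ℝ :=
  if h : ∃ F : X → ℝ, Continuous F ∧ (∀ ξ, (F ξ : AddCircle (1 : ℝ)) = u ξ) ∧
      F x0 ∈ Set.Ico (0 : ℝ) 1 then h.choose else 0

lemma cl_spec {X : Type} [TopologicalSpace X] (x0 : X) (c : C(unitInterval × X, X))
    (hc0 : ∀ ξ, c (0, ξ) = x0) (hc1 : ∀ ξ, c (1, ξ) = ξ) {u : X → AddCircle (1 : ℝ)}
    (hu : Continuous u) :
    Continuous (cl x0 u) ∧ (∀ ξ, (cl x0 u ξ : AddCircle (1 : ℝ)) = u ξ) ∧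
      cl x0 u x0 ∈ Set.Ico (0 : ℝ) 1 := by
  have h : ∃ F : X → ℝ, Continuous F ∧ (∀ ξ, (F ξ : AddCircle (1 : ℝ)) = u ξ) ∧
      F x0 ∈ Set.Ico (0 : ℝ) 1 := by
    have : Fact (0 < (1 : ℝ)) := ⟨one_pos⟩
    obtain ⟨F, h1, h2, h3⟩ := exists_lift x0 c hc0 hc1 hu
      (r := ((AddCircle.equivIco (1 : ℝ) 0 (u x0) : Set.Ico (0 : ℝ) (0 + 1)) : ℝ))
      AddCircle.coe_equivIco
    refine ⟨F, h1, h2, ?_⟩
    rw [h3]
    have := (AddCircle.equivIco (1 : ℝ) 0 (u x0)).2
    simpa using this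
  unfold cl
  rw [dif_pos h]
  exact h.choose_spec

end Pool.Agent.Helper59_Flow
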