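import Pool.Agent.Helper59_Flow.Lam

/-!
The sets `Sig` of values of the lifts on a fibre, the transitions, and the period element.
-/

set_option autoImplicit false

open Set Topology Filter

namespace Pool.Agent.Helper59_Flow

variable {S : Set ℂ} {q : N S → T3}

/-- the set of (point, values of the lifts) over the point `y` -/
def Sig (B : BData S q) (C : Chart S q) (ty y : R3) : Set (N S × (S × Z3 → ℝ)) :=
  {u | ∃ ξ, (∀ i, C.rel ξ i = y i - ty i) ∧ C.h ξ = u.1 ∧ ∀ j, lam B C ty j ξ = u.2 j}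

/-- difference of lifts at a pair of points -/
noncomputable def Adiff (B : BData S q) (C C' : Chart S q) (ty ty' : R3) (z : C.X × C'.X) :
    S × Z3 → ℤ :=
  fun j => round (lam B C' ty' j z.2 - lam B C ty j z.1)

lemma Adiff_shift (B : BData S q) (C C' : Chart S q) (ty ty' : R3) (z : C.X × C'.X)
    (j : S × Z3) (g : Z3) :
    Adiff B C C' (fun i => ty i + g i) (fun i => ty' i + g i) z (j.1, j.2 + g) =
      Adiff B C C' ty ty' z j := by
  unfold Adiff
  rw [lam_shift, lam_shift]

lemma pr_addf {ty δ : R3} {P : T3} (hty : pr ty = P) : pr (fun i => ty i + δ i) = P + pr δ := by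
  rw [← hty, ← pr_add]; rfl

lemma edge (B : BData S q) {C C' : Chart S q} {δ : R3} {ε : ℝ} (hT : Trans C C' δ ε)
    (hne : ∃ ξ : C.X, ‖C.rel ξ‖ ≤ ε) (hP : C'.P = C.P + pr δ) :
    ∃ zz : C.X × C'.X, C.h zz.1 = C'.h zz.2 ∧ (∀ i, C.rel zz.1 i = δ i + C'.rel zz.2 i) ∧
      ∀ ty : R3, pr ty = C.P →
        (∀ j, lam B C' (fun i => ty i + δ i) j zz.2 - lam B C ty j zz.1 =
          Adiff B C C' ty (fun i => ty i + δ i) zz j) ∧
        ∀ y : R3, ‖y - ty‖ ≤ ε → ‖y - (fun i => ty i + δ i)‖ ≤ ε →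
          ∀ (p : N S) (μ : S × Z3 → ℝ), (p, μ) ∈ Sig B C ty y ↔
            (p, fun j => μ j + Adiff B C C' ty (fun i => ty i + δ i) zz j) ∈
              Sig B C' (fun i => ty i + δ i) y := by
  obtain ⟨Z, _, _, a, b, ha, hb, hh, hrel, honto, honto'⟩ := hT
  obtain ⟨ξ0, hξ0⟩ := hne
  obtain ⟨z0, hz0⟩ := honto ξ0 hξ0
  refine ⟨(a z0, b z0), hh z0, fun i => by rw [hrel z0]; rfl, fun ty hty => ?_⟩
  have hty' : pr (fun i => ty i + δ i) = C'.P := by rw [pr_addf hty, hP]
  have hW : ∀ j z, W B j (C.h (a z)) (fun i => ty i + C.rel (a z) i) =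
      W B j (C'.h (b z)) (fun i => ty i + δ i + C'.rel (b z) i) := by
    intro j z
    rw [hh z]
    congr 1
    ext i
    rw [hrel z, Pi.add_apply]
    ring
  have hconst : ∀ j, ∃ n : ℤ, ∀ z, lam B C' (fun i => ty i + δ i) j (b z) =
      lam B C ty j (a z) + n := by
    intro j
    refine lift_diff ((lam_spec B C' hty' j).1.comp hb) ((lam_spec B C hty j).1.comp ha) ?_
    intro z
    rw [(lam_spec B C' hty' j).2.1, (lam_spec B C hty j).2.1, hW j z]
  have hA : ∀ j z, lam B C' (fun i => ty i + δ i) j (b z) - lam B C ty j (a z) =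
      Adiff B C C' ty (fun i => ty i + δ i) (a z0, b z0) j := by
    intro j z
    obtain ⟨n, hn⟩ := hconst j
    unfold Adiff
    rw [hn z, hn z0]
    simp
  refine ⟨fun j => hA j z0, ?_⟩
  intro y hy hy' p μ
  constructor
  · rintro ⟨ξ, hξ1, hξ2, hξ3⟩
    have hξn : ‖C.rel ξ‖ ≤ ε := by
      have : C.rel ξ = y - ty := by ext i; rw [hξ1 i]; rfl
      rw [this]; exact hy
    obtain ⟨z, rfl⟩ := honto ξ hξn
    refine ⟨b z, ?_, ?_, ?_⟩
    · intro i
      have h1 := hξ1 i
      rw [hrel z, Pi.add_apply] at h1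
      linarith
    · rw [← hh z]; exact hξ2
    · intro j
      have h1 := hA j z
      have h2 := hξ3 j
      simp only at h2 ⊢
      linarith
  · rintro ⟨ξ, hξ1, hξ2, hξ3⟩
    have hξn : ‖C'.rel ξ‖ ≤ ε := by
      have : C'.rel ξ = y - (fun i => ty i + δ i) := by ext i; rw [hξ1 i]; rfl
      rw [this]; exact hy'
    obtain ⟨z, rfl⟩ := honto' ξ hξn
    refine ⟨a z, ?_, ?_, ?_⟩
    · intro i
      have h1 := hξ1 i
      rw [hrel z, Pi.add_apply]
      linarith
    · rw [hh z]; exact hξ2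
    · intro j
      have h1 := hA j z
      have h2 := hξ3 j
      simp only at h2 ⊢
      linarith

/-- The period element. -/
lemma coset (B : BData S q) (C : Chart S q) {ty : R3} (hty : pr ty = C.P) (y : R3) :
    ∃ d : S × Z3 → ℤ, (Function.support d).Finite ∧ ∀ p μ μ', (p, μ) ∈ Sig B C ty y →
      (p, μ') ∈ Sig B C ty y → ∃ z : ℤ, ∀ j, μ' j - μ j = z * d j := by
  rcases C.cyc (fun i => y i - ty i) with hinj | ⟨γ, T, hγ, hrel, hsurj, hper, hinj⟩
  · refine ⟨0, by simp, ?_⟩
    rintro p μ μ' ⟨ξ, h1, h2, h3⟩ ⟨ξ', h1', h2', h3'⟩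
    refine ⟨0, fun j => ?_⟩
    have : ξ = ξ' := hinj (show C.rel ξ = _ from funext h1) (show C.rel ξ' = _ from funext h1')
      (by rw [h2, h2'])
    have h4 := h3 j
    have h5 := h3' j
    simp only at h4 h5
    rw [← h4, ← h5, this]
    simp
  · have hlift : ∀ j, ∃ n : ℤ, ∀ t, lam B C ty j (γ (t + T)) = lam B C ty j (γ t) + n := by
      intro j
      refine lift_diff ((lam_spec B C hty j).1.comp (hγ.comp (continuous_id.add continuous_const)))
        ((lam_spec B C hty j).1.comp hγ) ?_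
      intro t
      rw [(lam_spec B C hty j).2.1, (lam_spec B C hty j).2.1, hper t, hrel, hrel]
    choose d hd using hlift
    have hd' : ∀ j t (n : ℤ), lam B C ty j (γ (t + n * T)) = lam B C ty j (γ t) + n * d j := by
      intro j t n
      induction n using Int.induction_on with
      | zero => simp
      | succ n ih =>
        have h1 := hd j (t + (n : ℤ) * T)
        have h2 : t + ((n : ℤ) : ℝ) * T + T = t + (((n : ℤ) + 1 : ℤ) : ℝ) * T := by
          push_cast; ring
        rw [h2] at h1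
        rw [h1, ih]
        push_cast; ring
      | pred n ih =>
        have h1 := hd j (t + ((-(n : ℤ) - 1 : ℤ) : ℝ) * T)
        have h2 : t + ((-(n : ℤ) - 1 : ℤ) : ℝ) * T + T = t + ((-(n : ℤ) : ℤ) : ℝ) * T := by
          push_cast; ring
        rw [h2, ih] at h1
        have h3 : lam B C ty j (γ (t + ((-(n : ℤ) - 1 : ℤ) : ℝ) * T)) =
          lam B C ty j (γ t) + ((-(n : ℤ) : ℤ) : ℝ) * d j - d j := by linarith
        rw [h3]
        push_cast; ring
    refine ⟨d, ?_, ?_⟩
    · refine ((lam_fin B C hty (γ (0 + T))).union (lam_fin B C hty (γ 0))).subset ?_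
      intro j hj
      by_contra hcon
      rw [Set.mem_union, not_or] at hcon
      have h1 : lam B C ty j (γ (0 + T)) = 0 := by
        by_contra h; exact hcon.1 h
      have h2 : lam B C ty j (γ 0) = 0 := by
        by_contra h; exact hcon.2 h
      have h3 := hd j 0
      rw [h1, h2, zero_add] at h3
      apply hj
      exact_mod_cast h3.symm
    · rintro p μ μ' ⟨ξ, h1, h2, h3⟩ ⟨ξ', h1', h2', h3'⟩
      obtain ⟨t, rfl⟩ := hsurj ξ (funext h1)
      obtain ⟨t', rfl⟩ := hsurj ξ' (funext h1')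
      obtain ⟨n, rfl⟩ := hinj t t' (by rw [h2, h2'])
      refine ⟨n, fun j => ?_⟩
      have h4 := h3 j
      have h5 := h3' j
      simp only at h4 h5
      rw [← h4, ← h5, hd' j t n]
      simp

end Pool.Agent.Helper59_Flow
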