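import Pool.Agent.Helper59_Flow.Lift

/-!
The labelled circle valued functions `W j`, `j = (s, g)`, on the pull back of the universal cover
of the torus.
-/

set_option autoImplicit false

open Set Topology Filter

namespace Pool.Agent.Helper59_Flow

/-- representative in `[0,1)` -/
noncomputable def rep (a : AddCircle (1 : ℝ)) : ℝ :=
  ((AddCircle.equivIco (1 : ℝ) 0 a : Set.Ico (0 : ℝ) (0 + 1)) : ℝ)

lemma coe_rep (a : AddCircle (1 : ℝ)) : (rep a : AddCircle (1 : ℝ)) = a := AddCircle.coe_equivIco

lemma rep_mem (a : AddCircle (1 : ℝ)) : 0 ≤ rep a ∧ rep a < 1 := by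
  have := (AddCircle.equivIco (1 : ℝ) 0 a).2
  simpa [rep] using this

lemma continuousAt_rep {a : AddCircle (1 : ℝ)} (ha : a ≠ 0) : ContinuousAt rep a := by
  have : ContinuousAt (AddCircle.equivIco (1 : ℝ) 0) a :=
    AddCircle.continuousAt_equivIco (1 : ℝ) 0 (by simpa using ha)
  exact continuousAt_subtype_val.comp this

/-- The output of module B for a map to the torus. -/
structure BData (S : Set ℂ) (q : N S → T3) where
  ω : S → N S → AddCircle (1 : ℝ)
  x : S → Z3
  f : N S → R3
  ωc : ∀ s, Continuous (ω s)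
  fc : Continuous f
  lf : ∀ p : N S, ∃ V ∈ 𝓝 p, {s : S | ∃ p' ∈ V, ω s p' ≠ 0}.Finite
  disj : ∀ p s s', ω s p ≠ 0 → ω s' p ≠ 0 → s = s'
  qf : ∀ p s, ω s p ≠ 0 → ∀ i, q p i = (f p i : AddCircle (1 : ℝ)) + x s i • ω s p
  q0 : ∀ p, (∀ s, ω s p = 0) → ∀ i, q p i = (f p i : AddCircle (1 : ℝ))

lemma exists_BData (hB : BStatement) {S : Set ℂ} (hS : IsClosed S)
    (hS' : ∀ R : ℝ, (S ∩ Metric.closedBall 0 R).Finite) {q : N S → T3} (hq : Continuous q) :
    Nonempty (BData S q) := by
  obtain ⟨ω, h1, h2, h3, h4⟩ := hB S hS hS'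
  have h5 : ∀ i : Fin 3, ∃ (x : S → ℤ) (f : N S → ℝ), Continuous f ∧
          (∀ p s, ω s p ≠ 0 → q p i = (f p : AddCircle (1 : ℝ)) + x s • ω s p) ∧
          (∀ p, (∀ s, ω s p = 0) → q p i = (f p : AddCircle (1 : ℝ))) :=
    fun i => h4 (fun p => q p i) ((continuous_apply i).comp hq)
  choose x f hf hx hx0 using h5
  exact ⟨{ ω := ω, x := fun s i => x i s, f := fun p i => f i p, ωc := h1,
           fc := continuous_pi hf, lf := h2, disj := h3,
           qf := fun p s h i => hx i p s h
           q0 := fun p h i => hx0 i p h }⟩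

variable {S : Set ℂ} {q : N S → T3}

open Classical in
/-- The labelled functions. -/
noncomputable def W (B : BData S q) (j : S × Z3) (p : N S) (r : R3) : AddCircle (1 : ℝ) :=
  if ∀ i, r i - B.f p i = j.2 i + rep (B.ω j.1 p) * B.x j.1 i then B.ω j.1 p else 0

lemma W_eq_zero_or (B : BData S q) (j : S × Z3) (p : N S) (r : R3) :
    W B j p r = B.ω j.1 p ∨ W B j p r = 0 := by
  unfold W
  split_ifs
  · exact Or.inl rfl
  · exact Or.inr rfl

lemma W_shift (B : BData S q) (j : S × Z3) (g : Z3) (p : N S) (r : R3) :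
    W B (j.1, j.2 + g) p (fun i => r i + g i) = W B j p r := by
  unfold W
  have : (∀ i, r i + (g i : ℝ) - B.f p i = ((j.2 + g) i : ℤ) + rep (B.ω j.1 p) * B.x j.1 i) ↔
      (∀ i, r i - B.f p i = j.2 i + rep (B.ω j.1 p) * B.x j.1 i) := by
    constructor
    · intro h i
      have := h i
      rw [Pi.add_apply, Int.cast_add] at this
      linarith
    · intro h i
      have := h i
      rw [Pi.add_apply, Int.cast_add]
      linarith
  simp only [this]

/-- the defect is an integer where `ω s p ≠ 0` -/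
lemma defect_int (B : BData S q) {s : S} {p : N S} {r : R3} (hp : q p = pr r)
    (hs : B.ω s p ≠ 0) (i : Fin 3) : ∃ n : ℤ, r i - B.f p i - rep (B.ω s p) * B.x s i = n := by
  have h1 := B.qf p s hs i
  rw [hp] at h1
  have h2 : ((r i : ℝ) : AddCircle (1 : ℝ)) =
      ((B.f p i + B.x s i * rep (B.ω s p) : ℝ) : AddCircle (1 : ℝ)) := by
    have h3 : pr r i = ((r i : ℝ) : AddCircle (1 : ℝ)) := rfl
    rw [← h3, h1, AddCircle.coe_add]
    congr 1
    have h4 : (((B.x s i : ℝ) * rep (B.ω s p) : ℝ) : AddCircle (1 : ℝ)) =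
        B.x s i • ((rep (B.ω s p) : ℝ) : AddCircle (1 : ℝ)) := by
      rw [← AddCircle.coe_zsmul, zsmul_eq_mul]
    rw [h4, coe_rep]
  obtain ⟨n, hn⟩ := coe_eq_coe_iff.1 h2
  exact ⟨n, by rw [hn]; ring⟩

lemma defect_int0 (B : BData S q) {p : N S} {r : R3} (hp : q p = pr r)
    (hs : ∀ s, B.ω s p = 0) (i : Fin 3) : ∃ n : ℤ, r i - B.f p i = n := by
  have h1 := B.q0 p hs i
  rw [hp] at h1
  obtain ⟨n, hn⟩ := coe_eq_coe_iff.1 (show ((r i : ℝ) : AddCircle (1 : ℝ)) = _ from h1)
  exact ⟨n, by rw [hn]; ring⟩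

lemma W_continuous (B : BData S q) (j : S × Z3) {Y : Type} [TopologicalSpace Y] {h : Y → N S}
    {R : Y → R3} (hh : Continuous h) (hR : Continuous R) (hq : ∀ y, q (h y) = pr (R y)) :
    Continuous (fun y => W B j (h y) (R y)) := by
  rw [continuous_iff_continuousAt]
  intro y
  have hω : ContinuousAt (fun y => B.ω j.1 (h y)) y := ((B.ωc j.1).comp hh).continuousAt
  by_cases h0 : B.ω j.1 (h y) = 0
  · have hy : W B j (h y) (R y) = 0 := by
      rcases W_eq_zero_or B j (h y) (R y) with h1 | h1
      · rw [h1, h0]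
      · exact h1
    rw [ContinuousAt, hy]
    rw [ContinuousAt, h0] at hω
    intro U hU
    have h1 := hω hU
    rw [Filter.mem_map] at h1 ⊢
    filter_upwards [h1] with z hz
    rcases W_eq_zero_or B j (h z) (R z) with h2 | h2
    · change W B j (h z) (R z) ∈ U
      rw [h2]; exact hz
    · change W B j (h z) (R z) ∈ U
      rw [h2]; exact mem_of_mem_nhds hU
  · -- the integers `D i` are locally constant
    have hne : ∀ᶠ z in 𝓝 y, B.ω j.1 (h z) ≠ 0 := hω.eventually_ne h0
    let D : Fin 3 → Y → ℝ := fun i z => R z i - B.f (h z) i - rep (B.ω j.1 (h z)) * B.x j.1 i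
    have hD : ∀ i, ContinuousAt (D i) y := by
      intro i
      have h1 : ContinuousAt (fun z => rep (B.ω j.1 (h z))) y := by
        have := continuousAt_rep h0
        exact ContinuousAt.comp (f := fun z => B.ω j.1 (h z)) (g := rep) this hω
      have h2 : ContinuousAt (fun z => R z i) y := ((continuous_apply i).comp hR).continuousAt
      have h3 : ContinuousAt (fun z => B.f (h z) i) y :=
        ((continuous_apply i).comp (B.fc.comp hh)).continuousAt
      exact (h2.sub h3).sub (h1.mul continuousAt_const)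
    have hint : ∀ᶠ z in 𝓝 y, ∀ i, ∃ n : ℤ, D i z = n := by
      filter_upwards [hne] with z hz i
      exact defect_int B (hq z) hz i
    have hconst : ∀ᶠ z in 𝓝 y, ∀ i, D i z = D i y := by
      rw [eventually_all]
      intro i
      have h1 : ∀ᶠ z in 𝓝 y, |D i z - D i y| < 1 := by
        have := (hD i).tendsto
        have h2 := (Metric.tendsto_nhds.1 this) 1 one_pos
        filter_upwards [h2] with z hz
        simpa [Real.dist_eq] using hz
      filter_upwards [h1, hint] with z hz hz'
      obtain ⟨n, hn⟩ := hz' i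
      obtain ⟨k, hk⟩ := (hint.self_of_nhds) i
      rw [hn, hk] at hz ⊢
      have h3 : |((n - k : ℤ) : ℝ)| < 1 := by push_cast; exact hz
      have h4 : |n - k| < 1 := by exact_mod_cast h3
      have h5 : n - k = 0 := Int.abs_lt_one_iff.1 h4
      have h6 : n = k := by omega
      rw [h6]
    by_cases hc : ∀ i, R y i - B.f (h y) i = j.2 i + rep (B.ω j.1 (h y)) * B.x j.1 i
    · have h1 : ∀ᶠ z in 𝓝 y, W B j (h z) (R z) = B.ω j.1 (h z) := by
        filter_upwards [hconst] with z hz
        unfold W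
        rw [if_pos]
        intro i
        have h2 := hz i
        have h3 := hc i
        simp only [D] at h2
        linarith
      exact hω.congr (h1.mono fun z hz => hz.symm)
    · have h1 : ∀ᶠ z in 𝓝 y, W B j (h z) (R z) = 0 := by
        filter_upwards [hconst] with z hz
        unfold W
        rw [if_neg]
        intro h4
        apply hc
        intro i
        have h2 := hz i
        have h3 := h4 i
        simp only [D] at h2
        linarith
      exact (continuousAt_const (y := (0 : AddCircle (1 : ℝ)))).congr (h1.mono fun z hz => hz.symm)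

end Pool.Agent.Helper59_Flow
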