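import Pool.Agent.Helper59_Flow.W

/-!
Finiteness and summation for the labelled functions.
-/

set_option autoImplicit false

open Set Topology Filter

namespace Pool.Agent.Helper59_Flow

variable {S : Set ℂ} {q : N S → T3}

lemma W_finite (B : BData S q) {Y : Type} [TopologicalSpace Y] [CompactSpace Y] {h : Y → N S}
    {R : Y → R3} (hh : Continuous h) (hR : Continuous R) :
    {j : S × Z3 | ∃ y, W B j (h y) (R y) ≠ 0}.Finite := by
  -- finitely many `s`
  have hF : {s : S | ∃ p' ∈ Set.range h, B.ω s p' ≠ 0}.Finite := by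
    refine (isCompact_range hh).induction_on
      (p := fun A => {s : S | ∃ p' ∈ A, B.ω s p' ≠ 0}.Finite) ?_ ?_ ?_ ?_
    · simp
    · intro A A' hA hA'
      exact hA'.subset fun s ⟨p', hp', h'⟩ => ⟨p', hA hp', h'⟩
    · intro A A' hA hA'
      refine (hA.union hA').subset ?_
      rintro s ⟨p', hp' | hp', h'⟩
      · exact Or.inl ⟨p', hp', h'⟩
      · exact Or.inr ⟨p', hp', h'⟩
    · intro p _
      obtain ⟨V, hV, hfin⟩ := B.lf p
      exact ⟨V, mem_nhdsWithin_of_mem_nhds hV, hfin⟩
  -- bound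
  obtain ⟨M, hM⟩ := (isCompact_univ (X := Y)).exists_bound_of_continuousOn
    (f := fun y => R y - B.f (h y)) (hR.sub (B.fc.comp hh)).continuousOn
  have hM' : ∀ y i, |R y i - B.f (h y) i| ≤ M := by
    intro y i
    have h1 := hM y (Set.mem_univ y)
    have h2 := norm_le_pi_norm (R y - B.f (h y)) i
    rw [Real.norm_eq_abs, Pi.sub_apply] at h2
    exact h2.trans h1
  refine (hF.biUnion (t := fun s => ({s} : Set S) ×ˢ
    (Set.pi Set.univ fun i : Fin 3 => Set.Icc (-(⌈M⌉ + |B.x s i|)) (⌈M⌉ + |B.x s i|))) ?_).subset ?_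
  · intro s _
    exact (Set.finite_singleton s).prod (Set.Finite.pi fun i => Set.finite_Icc _ _)
  · rintro ⟨s, g⟩ ⟨y, hy⟩
    have hs : B.ω s (h y) ≠ 0 := by
      rcases W_eq_zero_or B (s, g) (h y) (R y) with h1 | h1
      · rw [h1] at hy; exact hy
      · exact absurd h1 hy
    have hc : ∀ i, R y i - B.f (h y) i = g i + rep (B.ω s (h y)) * B.x s i := by
      by_contra hcon
      apply hy
      unfold W
      rw [if_neg hcon]
    simp only [Set.mem_iUnion]
    refine ⟨s, ⟨h y, Set.mem_range_self y, hs⟩, rfl, ?_⟩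
    intro i _
    have h1 := hM' y i
    have h2 := rep_mem (B.ω s (h y))
    have h3 : |(rep (B.ω s (h y)) * B.x s i : ℝ)| ≤ |(B.x s i : ℝ)| := by
      rw [abs_mul]
      have : |rep (B.ω s (h y))| ≤ 1 := by rw [abs_of_nonneg h2.1]; exact h2.2.le
      exact mul_le_of_le_one_left (abs_nonneg _) this
    have h4 : |(g i : ℝ)| ≤ ⌈M⌉ + |(B.x s i : ℝ)| := by
      have h5 : (g i : ℝ) = (R y i - B.f (h y) i) - rep (B.ω s (h y)) * B.x s i := by
        rw [hc i]; ring
      rw [h5]
      calc |(R y i - B.f (h y) i) - rep (B.ω s (h y)) * B.x s i|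
          ≤ |R y i - B.f (h y) i| + |rep (B.ω s (h y)) * B.x s i| := abs_sub _ _
        _ ≤ ⌈M⌉ + |(B.x s i : ℝ)| := add_le_add (h1.trans (Int.le_ceil M)) h3
    have h6 : |g i| ≤ ⌈M⌉ + |B.x s i| := by
      have : ((|g i| : ℤ) : ℝ) ≤ ((⌈M⌉ + |B.x s i| : ℤ) : ℝ) := by push_cast; exact h4
      exact_mod_cast this
    exact abs_le.1 h6

lemma W_sum (B : BData S q) {p : N S} {r : R3} (hp : q p = pr r) (Λ : S × Z3 → ℝ)
    (J : Finset (S × Z3)) (hJ : ∀ j, j ∉ J → Λ j = 0)
    (hΛ : ∀ j, (Λ j : AddCircle (1 : ℝ)) = W B j p r) (i : Fin 3) :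
    ∃ n : ℤ, ∑ j ∈ J, Λ j * B.x j.1 i - (r i - B.f p i) = n := by
  classical
  have key : ∑ j ∈ J, B.x j.1 i • W B j p r = ((r i - B.f p i : ℝ) : AddCircle (1 : ℝ)) := by
    by_cases h0 : ∀ s, B.ω s p = 0
    · have h1 : ∀ j ∈ J, B.x j.1 i • W B j p r = 0 := by
        intro j _
        rcases W_eq_zero_or B j p r with h2 | h2
        · rw [h2, h0, smul_zero]
        · rw [h2, smul_zero]
      rw [Finset.sum_eq_zero h1]
      obtain ⟨n, hn⟩ := defect_int0 B hp h0 i
      exact (coe_eq_zero_iff'.2 ⟨n, hn⟩).symm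
    · push Not at h0
      obtain ⟨s, hs⟩ := h0
      choose g hg using fun i => defect_int B hp hs i
      have hW0 : W B (s, g) p r = B.ω s p := by
        unfold W
        rw [if_pos]
        intro i
        have := hg i
        simp only
        linarith
      have hW : ∀ j ∈ J, j ≠ (s, g) → B.x j.1 i • W B j p r = 0 := by
        intro j _ hj
        have : W B j p r = 0 := by
          by_contra hne
          have h2 : B.ω j.1 p ≠ 0 := by
            rcases W_eq_zero_or B j p r with h1 | h1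
            · rw [h1] at hne; exact hne
            · exact absurd h1 hne
          have h3 : j.1 = s := B.disj p j.1 s h2 hs
          apply hj
          have h4 : ∀ i, r i - B.f p i = j.2 i + rep (B.ω j.1 p) * B.x j.1 i := by
            by_contra hcon
            apply hne
            unfold W
            rw [if_neg hcon]
          ext i
          · exact congrArg _ h3
          · have h5 := h4 i
            rw [h3] at h5
            have h6 := hg i
            have h7 : ((j.2 i : ℤ) : ℝ) = (g i : ℝ) := by linarith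
            exact_mod_cast h7
        rw [this, smul_zero]
      have hmem : (s, g) ∈ J := by
        by_contra hcon
        have h1 := hΛ (s, g)
        rw [hJ _ hcon, hW0, AddCircle.coe_zero] at h1
        exact hs h1.symm
      rw [Finset.sum_eq_single_of_mem (s, g) hmem hW, hW0]
      have h1 := B.qf p s hs i
      rw [hp] at h1
      have h2 : pr r i = ((r i : ℝ) : AddCircle (1 : ℝ)) := rfl
      rw [h2] at h1
      rw [AddCircle.coe_sub, h1]
      simp
  have h2 : ((∑ j ∈ J, Λ j * B.x j.1 i : ℝ) : AddCircle (1 : ℝ)) =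
      ∑ j ∈ J, B.x j.1 i • W B j p r := by
    have h3 : ((∑ j ∈ J, Λ j * B.x j.1 i : ℝ) : AddCircle (1 : ℝ)) =
        ∑ j ∈ J, ((Λ j * B.x j.1 i : ℝ) : AddCircle (1 : ℝ)) := by
      exact map_sum (QuotientAddGroup.mk' (AddSubgroup.zmultiples (1 : ℝ))) _ _
    rw [h3]
    refine Finset.sum_congr rfl fun j _ => ?_
    rw [← hΛ j, ← AddCircle.coe_zsmul, zsmul_eq_mul, mul_comm]
  rw [key] at h2
  obtain ⟨n, hn⟩ := coe_eq_coe_iff.1 h2
  exact ⟨n, by rw [hn]; ring⟩

end Pool.Agent.Helper59_Flow
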